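import Pool.Agent.MP_bd94e8_al.H89.Spec

/-!
Tests given by families of incomparable points.
-/

set_option autoImplicit false
set_option linter.unusedSectionVars false
set_option linter.unusedVariables false

namespace Pool.Agent.MP_bd94e8_al.H89

open Module Function

namespace TestsA

variable {k F : Type} [Field k] [Field F] [Algebra k F] {Pt ι : Type} [Fintype Pt] [DecidableEq Pt]

/-- Tests given by a family of points. -/
theorem test0 {B : Subalgebra k (Matrix Pt Pt F)} (h : Hyp B) {T I O : Type} [Fintype T]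
    [DecidableEq T] [Fintype I] [Fintype O] (tv : T → I) (tp : T → O) (hs : Surjective tv)
    (π : T → Pt) (hinj : ∀ t t', tv t = tv t' → π t = π t' → t = t')
    (S : I → I → Submodule k (Matrix T T F))
    (hS : ∀ i j, ∀ b ∈ B,
      mask (fun t' t => tv t = i ∧ tv t' = j ∧ tp t' = tp t) (b.submatrix π π) ∈ S i j)
    (d : I → ℕ) (v : O → ℕ) (hd : d ≠ 0 ∨ v ≠ 0) :
    (∑ t, d (tv t) * v (tp t)) * finrank k F <
      (∑ o, v o ^ 2) * finrank k F + ∑ i, ∑ j, d i * d j * finrank k (S i j) := by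
  have key : ∀ b : Matrix Pt Pt F, (1 : Matrix Pt Pt F).submatrix π id * b *
      (1 : Matrix Pt Pt F).submatrix id π = b.submatrix π π := by
    intro b
    ext t' t
    simp [Matrix.mul_apply, Matrix.one_apply]
  refine h F LinearMap.id rfl T I O tv tp hs ((1 : Matrix Pt Pt F).submatrix id π)
    ((1 : Matrix Pt Pt F).submatrix π id) (fun t t' e => ?_) S (fun i j b hb => ?_) d v hd
  · have := key 1
    rw [Matrix.mul_one] at this
    rw [this, Matrix.submatrix_apply]
    by_cases e' : t = t'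
    · subst e'; simp
    · rw [Matrix.one_apply_ne e', Matrix.one_apply_ne fun e2 => e' (hinj t t' e e2)]
  · rw [key]
    exact hS i j b hb

/-- Scalar matrices on the points of a test vertex. -/
noncomputable def sc (k F : Type) [Field k] [Field F] [Algebra k F] {T I : Type} [DecidableEq T]
    (tv : T → I) (i : I) : F →ₗ[k] Matrix T T F where
  toFun c := mask (fun t' t => tv t = i ∧ t' = t) (Matrix.of fun _ _ => c)
  map_add' a b := by
    ext t' t
    simp only [mask_apply, Matrix.add_apply, Matrix.of_apply]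
    split_ifs <;> simp
  map_smul' a b := by
    ext t' t
    simp only [mask_apply, Matrix.smul_apply, Matrix.of_apply, RingHom.id_apply]
    split_ifs <;> simp

theorem sc_apply {T I : Type} [DecidableEq T] (tv : T → I) (i : I) (c : F) :
    sc k F tv i c = mask (fun t' t => tv t = i ∧ t' = t) (Matrix.of fun _ _ => c) := rfl

theorem diag_mem {P : Prob k F Pt ι Unit} {val : Set ι} {ht : Pt → ℕ} (hF : Flag P val ht)
    {T I O : Type} [DecidableEq T] (tv : T → I) (tp : T → O) (hs : Surjective tv) (π : T → Pt)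
    (hv : ∀ t t', tv t = tv t' → P.vt (π t) = P.vt (π t')) (hval : ∀ t, P.vt (π t) ∉ val) (i : I)
    (hinc : ∀ t t', tv t = i → tv t' = i → tp t' = tp t → t' ≠ t →
      π t ≠ π t' ∧ ¬ P.Ar (π t) (π t')) (b : Matrix Pt Pt F) (hb : b ∈ P.B) :
    mask (fun t' t => tv t = i ∧ tv t' = i ∧ tp t' = tp t) (b.submatrix π π) ∈
      LinearMap.range (sc k F tv i) := by
  obtain ⟨t0, h0⟩ := hs i
  refine ⟨b (π t0) (π t0), ?_⟩
  ext t' t
  rw [sc_apply]
  by_cases h1 : tv t = i ∧ t' = t
  · obtain ⟨h1, rfl⟩ := h1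
    rw [mask_pos (s := fun t' t => tv t = i ∧ t' = t) _ ⟨h1, rfl⟩,
      mask_pos (s := fun t' t => tv t = i ∧ tv t' = i ∧ tp t' = tp t) _ ⟨h1, h1, rfl⟩]
    exact hF.diag b hb _ _ (hv _ _ (h0.trans h1.symm)) (hval _)
  · rw [mask_neg (s := fun t' t => tv t = i ∧ t' = t) _ h1]
    by_contra hne
    obtain ⟨⟨e1, e2, e3⟩, e4⟩ := mask_ne (Ne.symm hne)
    have h2 := hinc t t' e1 e2 e3 fun e => h1 ⟨e1, e⟩
    exact h2.2 ⟨h2.1, b, hb, e4⟩

theorem off_zero {P : Prob k F Pt ι Unit} {T I O : Type} (tv : T → I) (tp : T → O) (π : T → Pt)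
    (i j : I) (hinc : ∀ t t', tv t = i → tv t' = j → tp t' = tp t →
      π t ≠ π t' ∧ ¬ P.Ar (π t) (π t')) (b : Matrix Pt Pt F) (hb : b ∈ P.B) :
    mask (fun t' t => tv t = i ∧ tv t' = j ∧ tp t' = tp t) (b.submatrix π π) = 0 := by
  ext t' t
  by_contra hne
  obtain ⟨⟨e1, e2, e3⟩, e4⟩ := mask_ne hne
  have h2 := hinc t t' e1 e2 e3
  exact h2.2 ⟨h2.1, b, hb, e4⟩

/-- Tests with incomparable points at every peak. -/
theorem test1 [FiniteDimensional k F] {P : Prob k F Pt ι Unit} {val : Set ι} {ht : Pt → ℕ}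
    (hF : Flag P val ht) (h : Hyp P.B) {T I O : Type} [Fintype T] [DecidableEq T] [Fintype I]
    [Fintype O] (tv : T → I) (tp : T → O) (hs : Surjective tv) (π : T → Pt)
    (hinj : ∀ t t', tv t = tv t' → π t = π t' → t = t')
    (hv : ∀ t t', tv t = tv t' → P.vt (π t) = P.vt (π t')) (hval : ∀ t, P.vt (π t) ∉ val)
    (hinc : ∀ t t', tp t' = tp t → t' ≠ t → π t ≠ π t' ∧ ¬ P.Ar (π t) (π t'))
    (d : I → ℕ) (v : O → ℕ) (hd : d ≠ 0 ∨ v ≠ 0) :
    ∑ t, d (tv t) * v (tp t) < ∑ o, v o ^ 2 + ∑ i, d i ^ 2 := by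
  classical
  have h1 := test0 h tv tp hs π hinj
    (fun i j => if i = j then LinearMap.range (sc k F tv i) else ⊥) (fun i j b hb => by
      by_cases e : i = j
      · subst e
        rw [if_pos rfl]
        exact diag_mem hF tv tp hs π hv hval i (fun t t' _ _ => hinc t t') b hb
      · rw [if_neg e, off_zero tv tp π i j (fun t t' e1 e2 e3 => hinc t t' e3 fun e4 =>
          e (by rw [← e1, ← e2, e4])) b hb]
        exact Submodule.zero_mem _) d v hd
  have h2 : ∑ i, ∑ j, d i * d j * finrank k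
      ↥(if i = j then LinearMap.range (sc k F tv i) else ⊥) ≤ (∑ i, d i ^ 2) * finrank k F := by
    rw [Finset.sum_mul]
    refine Finset.sum_le_sum fun i _ => ?_
    rw [Finset.sum_eq_single i]
    · rw [if_pos rfl, sq]
      exact Nat.mul_le_mul_left _ (LinearMap.finrank_range_le _)
    · intro j _ hj
      rw [if_neg (Ne.symm hj), finrank_bot, mul_zero]
    · simp
  have h3 := h1.trans_le (Nat.add_le_add_left h2 _)
  rw [← add_mul] at h3
  exact lt_of_mul_lt_mul_right h3 (Nat.zero_le _)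

theorem cyc [FiniteDimensional k F] {P : Prob k F Pt ι Unit} {ht : Pt → ℕ}
    (hF : Flag P ∅ ht) (h : Hyp P.B) (r : ℕ) (e x : Fin (r + 1) → Pt)
    (hw : ∀ m, P.vt (e m) = P.vt (x m) ∧ e m ≠ x m ∧ P.Inc (x m) (e (m + 1))) : False := by
  have := test1 hF h (T := Fin (r + 1) × Bool) (I := Fin (r + 1)) (O := Fin (r + 1)) Prod.fst
    (fun t => bif t.2 then t.1 + 1 else t.1) (fun m => ⟨(m, true), rfl⟩)
    (fun t => bif t.2 then x t.1 else e t.1) ?_ ?_ (fun _ => Set.notMem_empty _) ?_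
    (fun _ => 1) (fun _ => 1) (Or.inl fun e => one_ne_zero (congrFun e 0))
  · simp at this
    omega
  · rintro ⟨m, s⟩ ⟨m', s'⟩ h1 h2
    obtain rfl : m = m' := h1
    cases s <;> cases s'
    · rfl
    · exact ((hw m).2.1 h2).elim
    · exact ((hw m).2.1 h2.symm).elim
    · rfl
  · rintro ⟨m, s⟩ ⟨m', s'⟩ h1
    obtain rfl : m = m' := h1
    cases s <;> cases s'
    · rfl
    · exact (hw m).1
    · exact (hw m).1.symm
    · rfl
  · rintro ⟨m, s⟩ ⟨m', s'⟩ h1 h2
    cases s <;> cases s'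
    · exact (h2 (Prod.ext h1 rfl)).elim
    · obtain rfl : m' + 1 = m := h1
      exact ⟨(hw m').2.2.2.1.symm, (hw m').2.2.2.2.2⟩
    · obtain rfl : m' = m + 1 := h1
      exact ⟨(hw m).2.2.2.1, (hw m).2.2.2.2.1⟩
    · exact (h2 (Prod.ext (add_right_cancel (show m' + 1 = m + 1 from h1)) rfl)).elim

theorem two_more {vt : Pt → ι} {τ : Pt} (h : Tri3 vt (vt τ)) :
    ∃ a : Bool → Pt, (∀ s, vt (a s) = vt τ ∧ a s ≠ τ) ∧ Injective a := by
  have key : ∀ p q, vt p = vt τ → vt q = vt τ → p ≠ q → p ≠ τ → q ≠ τ →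
      ∃ a : Bool → Pt, (∀ s, vt (a s) = vt τ ∧ a s ≠ τ) ∧ Injective a := by
    intro p q hp hq h1 h2 h3
    refine ⟨fun s => bif s then p else q, fun s => ?_, fun s s' e => ?_⟩
    · cases s
      · exact ⟨hq, h3⟩
      · exact ⟨hp, h2⟩
    · cases s <;> cases s'
      · rfl
      · exact (h1 e.symm).elim
      · exact (h1 e).elim
      · rfl
  obtain ⟨p, q, r, hp, hq, hr, h1, h2, h3⟩ := h
  by_cases e1 : p = τ
  · exact key q r hq hr h3 (fun e => h1 (e1.trans e.symm)) fun e => h2 (e1.trans e.symm)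
  · by_cases e2 : q = τ
    · exact key p r hp hr h2 e1 fun e => h3 (e2.trans e.symm)
    · exact key p q hp hq h1 e1 e2

theorem noTT [FiniteDimensional k F] {P : Prob k F Pt ι Unit} {val : Set ι} {ht : Pt → ℕ}
    (hF : Flag P val ht) (h : Hyp P.B) : NoTT P.vt P.Inc val := by
  intro r e x t0 t1 v0 v1 hi hw
  obtain ⟨a, ha, ia⟩ := two_more t0
  obtain ⟨b, hb, ib⟩ := two_more t1
  let tv : (Fin (r + 1) × Bool) ⊕ (Bool × Bool) → Fin (r + 2) := fun t => match t with
    | .inl (m, false) => m.castSucc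
    | .inl (m, true) => m.succ
    | .inr (false, _) => 0
    | .inr (true, _) => Fin.last _
  let π : (Fin (r + 1) × Bool) ⊕ (Bool × Bool) → Pt := fun t => match t with
    | .inl (m, false) => x m
    | .inl (m, true) => e (m + 1)
    | .inr (false, s) => a s
    | .inr (true, s) => b s
  let w : ℕ → ι := fun n => if n = 0 then P.vt (x 0) else P.vt (e n)
  have hπ : ∀ t, P.vt (π t) = w (tv t) := by
    rintro (⟨m, _ | _⟩ | ⟨_ | _, s⟩)
    · show P.vt (x m) = w m
      by_cases h0 : (m : ℕ) = 0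
      · simp only [w, h0, if_true]
      · simp only [w, h0, if_false]
        exact (hw m (Nat.one_le_iff_ne_zero.2 h0) (Nat.lt_succ_iff.1 m.2)).1.symm
    · rfl
    · exact (ha s).1
    · exact (hb s).1
  have hwv : ∀ n ≤ r + 1, w n ∉ val := by
    intro n hn
    by_cases h0 : n = 0
    · simpa only [w, h0, if_true] using v0
    · simp only [w, h0, if_false]
      rcases Nat.lt_or_eq_of_le hn with h1 | rfl
      · exact (hw n (Nat.one_le_iff_ne_zero.2 h0) (Nat.lt_succ_iff.1 h1)).2.2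
      · exact v1
  have := test1 hF h (O := Fin (r + 1) ⊕ (Bool × Bool)) tv (Sum.map Prod.fst id) ?_ π ?_
    (fun t t' e => by rw [hπ, hπ, e]) (fun t => by
      rw [hπ]; exact hwv _ (Nat.lt_succ_iff.1 (tv t).2)) ?_
    (fun _ => 2) (Sum.elim (fun _ => 2) fun _ => 1) (Or.inl fun e => two_ne_zero (congrFun e 0))
  · simp [Fintype.sum_sum_type] at this
    omega
  · intro n
    refine Fin.lastCases ?_ (fun m => ?_) n
    · exact ⟨.inr (true, true), rfl⟩
    · exact ⟨.inl (m, false), rfl⟩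
  · have c0 : ∀ m : Fin (r + 1), m.castSucc = 0 → (m : ℕ) = 0 := fun m e => congrArg Fin.val e
    have c1 : ∀ m : Fin (r + 1), m.succ = Fin.last _ → (m : ℕ) = r := fun m e =>
      Nat.succ_injective (congrArg Fin.val e)
    have c2 : ∀ m m' : Fin (r + 1), m.castSucc = m'.succ → x m ≠ e (m' + 1) := by
      intro m m' e1 e2
      have e3 : (m : ℕ) = m' + 1 := congrArg Fin.val e1
      rw [← e3] at e2
      exact (hw m (by omega) (Nat.lt_succ_iff.1 m.2)).2.1 e2.symm
    have c3 : (0 : Fin (r + 2)) ≠ Fin.last _ := (Fin.last_pos (n := r)).ne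
    rintro (⟨m, _ | _⟩ | ⟨_ | _, s⟩) (⟨m', _ | _⟩ | ⟨_ | _, s'⟩) h1 h2
    · rw [Fin.castSucc_injective _ h1]
    · exact (c2 m m' h1 h2).elim
    · exact ((ha s').2 (by rw [← c0 m h1]; exact h2.symm)).elim
    · exact ((Fin.castSucc_lt_last m).ne h1).elim
    · exact (c2 m' m h1.symm h2.symm).elim
    · rw [Fin.succ_injective _ h1]
    · exact (Fin.succ_ne_zero m h1).elim
    · exact ((hb s').2 (by rw [← c1 m h1]; exact h2.symm)).elim
    · exact ((ha s).2 (by rw [← c0 m' h1.symm]; exact h2)).elim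
    · exact (Fin.succ_ne_zero m' h1.symm).elim
    · rw [ia h2]
    · exact (c3 h1).elim
    · exact ((Fin.castSucc_lt_last m').ne h1.symm).elim
    · exact ((hb s).2 (by rw [← c1 m' h1.symm]; exact h2)).elim
    · exact (c3 h1.symm).elim
    · rw [ib h2]
  · rintro (⟨m, s⟩ | u) (⟨m', s'⟩ | u') h1 h2
    · obtain rfl : m' = m := Sum.inl_injective h1
      have hm := hi m' (Nat.lt_succ_iff.1 m'.2)
      cases s <;> cases s'
      · exact (h2 rfl).elim
      · exact ⟨hm.2.1, hm.2.2.1⟩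
      · exact ⟨hm.2.1.symm, hm.2.2.2⟩
      · exact (h2 rfl).elim
    · exact (Sum.inr_ne_inl h1).elim
    · exact (Sum.inl_ne_inr h1).elim
    · exact (h2 (congrArg Sum.inr (Sum.inr_injective h1))).elim

/-- A vector as three entries of a matrix. -/
noncomputable def em (k F : Type) [Field k] [Field F] [Algebra k F] :
    (Fin 3 → F) →ₗ[k] Matrix (Bool × Fin 3) (Bool × Fin 3) F where
  toFun u := mask (fun t' t => t.1 = false ∧ t'.1 = true ∧ t'.2 = t.2) (Matrix.of fun _ t => u t.2)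
  map_add' a b := by
    ext t' t
    simp only [mask_apply, Matrix.add_apply, Matrix.of_apply, Pi.add_apply]
    split_ifs <;> simp
  map_smul' a b := by
    ext t' t
    simp only [mask_apply, Matrix.smul_apply, Matrix.of_apply, RingHom.id_apply, Pi.smul_apply]
    split_ifs <;> simp

theorem no3 [FiniteDimensional k F] {P : Prob k F Pt ι Unit} {val : Set ι} {ht : Pt → ℕ}
    (hF : Flag P val ht) (h : Hyp P.B) : No3 P val := by
  intro i j x y hij hi hj ix iy hx hy har W hW
  let π : Bool × Fin 3 → Pt := fun t => bif t.1 then y t.2 else x t.2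
  let S : Bool → Bool → Submodule k (Matrix (Bool × Fin 3) (Bool × Fin 3) F) := fun c c' =>
    match c, c' with
    | false, false => LinearMap.range (sc k F Prod.fst false)
    | true, true => LinearMap.range (sc k F Prod.fst true)
    | false, true => W.map (em k F)
    | true, false => ⊥
  have hs : Surjective (Prod.fst : Bool × Fin 3 → Bool) := fun c => ⟨(c, 0), rfl⟩
  have hv : ∀ t t' : Bool × Fin 3, t.1 = t'.1 → P.vt (π t) = P.vt (π t') := by
    rintro ⟨c, s⟩ ⟨c', s'⟩ e
    obtain rfl : c = c' := e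
    cases c
    · exact (hx s).trans (hx s').symm
    · exact (hy s).trans (hy s').symm
  have hval : ∀ t, P.vt (π t) ∉ val := by
    rintro ⟨_ | _, s⟩
    · exact (hx s).symm ▸ hi
    · exact (hy s).symm ▸ hj
  have hd : ∀ c, ∀ b ∈ P.B,
      mask (fun t' t : Bool × Fin 3 => t.1 = c ∧ t'.1 = c ∧ t'.2 = t.2) (b.submatrix π π) ∈
        LinearMap.range (sc k F Prod.fst c) := fun c b hb =>
    diag_mem hF Prod.fst Prod.snd hs π hv hval c
      (fun t t' e1 e2 e3 e4 => (e4 (Prod.ext (e2.trans e1.symm) e3)).elim) b hb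
  have h1 := test0 h (O := Fin 3) Prod.fst Prod.snd hs π ?_ S ?_ (fun _ => 1) (fun _ => 1)
    (Or.inl fun e => one_ne_zero (congrFun e true))
  · have a1 := LinearMap.finrank_range_le (sc k F (Prod.fst : Bool × Fin 3 → Bool) false)
    have a2 := LinearMap.finrank_range_le (sc k F (Prod.fst : Bool × Fin 3 → Bool) true)
    have a3 := Submodule.finrank_map_le (em k F) W
    simp only [Fintype.sum_bool, S, finrank_bot, mul_one, one_mul, one_pow, Finset.sum_const,
      Finset.card_univ, Fintype.card_prod, Fintype.card_bool, Fintype.card_fin, smul_eq_mul] at h1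
    omega
  · rintro ⟨c, s⟩ ⟨c', s'⟩ e1 e2
    obtain rfl : c = c' := e1
    cases c
    · exact Prod.ext rfl (ix e2)
    · exact Prod.ext rfl (iy e2)
  · rintro (_ | _) (_ | _) b hb
    · exact hd false b hb
    · refine ⟨_, hW b hb, ?_⟩
      ext t' t
      by_cases e : t.1 = false ∧ t'.1 = true ∧ t'.2 = t.2
      · refine (mask_pos (s := fun t' t : Bool × Fin 3 => t.1 = false ∧ t'.1 = true ∧ t'.2 = t.2)
          _ e).trans (Eq.trans ?_ (mask_pos
            (s := fun t' t : Bool × Fin 3 => t.1 = false ∧ t'.1 = true ∧ t'.2 = t.2) _ e).symm)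
        obtain ⟨c, s⟩ := t
        obtain ⟨c', s'⟩ := t'
        obtain ⟨rfl, rfl, rfl⟩ := e
        rfl
      · exact (mask_neg (s := fun t' t : Bool × Fin 3 => t.1 = false ∧ t'.1 = true ∧ t'.2 = t.2)
          _ e).trans (mask_neg
            (s := fun t' t : Bool × Fin 3 => t.1 = false ∧ t'.1 = true ∧ t'.2 = t.2) _ e).symm
    · rw [off_zero (P := P) Prod.fst Prod.snd π true false ?_ b hb]
      · exact Submodule.zero_mem _
      · rintro ⟨c, s⟩ ⟨c', s'⟩ e1 e2 e3
        obtain rfl : c = true := e1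
        obtain rfl : c' = false := e2
        obtain rfl : s' = s := e3
        refine ⟨fun e => hij ?_, har s'⟩
        rw [← hx s', ← hy s']
        exact congrArg P.vt e.symm
    · exact hd true b hb

end TestsA

theorem path : SPath := by
  intro k F _ _ _ _ Pt ι _ _ P ht hF h e x hw
  have key : ∀ m m' : ℕ, m < m' → m' < Fintype.card Pt ^ 2 + 1 → e m = e m' → False := by
    intro m m' h1 h2 h3
    obtain ⟨r, rfl⟩ : ∃ r, m' = m + (r + 1) := ⟨m' - m - 1, by omega⟩
    refine TestsA.cyc hF h r (fun n => e (m + n)) (fun n => x (m + n)) fun n => ?_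
    have h4 := hw (m + n) (by have := n.2; omega)
    refine ⟨h4.1, h4.2.1, ?_⟩
    have h5 : e (m + ((n + 1 : Fin (r + 1)) : ℕ)) = e (m + n + 1) := by
      rw [Fin.val_add_one]
      split_ifs with h6
      · rw [h6, Fin.val_last, add_zero]; exact h3
      · rfl
    show P.Inc (x (m + n)) (e (m + ((n + 1 : Fin (r + 1)) : ℕ)))
    rw [h5]
    exact h4.2.2
  obtain ⟨m, m', h1, h2⟩ := Fintype.exists_ne_map_eq_of_card_lt
    (fun m : Fin (Fintype.card Pt ^ 2 + 1) => e m) (by
      rw [Fintype.card_fin]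
      exact Nat.lt_succ_of_le (Nat.le_self_pow two_ne_zero _))
  rcases lt_or_gt_of_ne h1 with h3 | h3
  · exact key m m' h3 m'.2 h2
  · exact key m' m h3 m.2 h2.symm

theorem tt : STT := by
  intro k F _ _ _ _ Pt ι _ _ P val ht hF h
  exact ⟨TestsA.noTT hF h, TestsA.no3 hF h⟩

end Pool.Agent.MP_bd94e8_al.H89
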